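import Pool.Agent.H2.Aval1

/-!
Every finite simplicial complex, in particular every finite wedge of spheres, is homotopy
equivalent to an avalanche complex.
-/

namespace Pool.Agent.Results.MP_fb4947_gt.Wedge

open Finset Classical Pool.Agent.H2.Aval

/-- the unit sphere `S^d` in `ℝ^{d+1}` -/
abbrev Sph (d : ℕ) : Type := Metric.sphere (0 : EuclideanSpace ℝ (Fin (d + 1))) 1

/-- the base point `(1,0,…,0)` of `S^d` -/
noncomputable def pole (d : ℕ) : Sph d := ⟨EuclideanSpace.single 0 1, by simp⟩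

/-- the wedge `S^{d 0} ∨ ⋯ ∨ S^{d (m-1)}`: the disjoint union of a point and the spheres, with
the point glued to the base point of each sphere (quotient topology); a point when `m = 0` -/
def WedgeSph {m : ℕ} (d : Fin m → ℕ) : Type :=
  Quot fun a b : Unit ⊕ (Σ i, Sph (d i)) => a = Sum.inl () ∧ ∃ i, b = Sum.inr ⟨i, pole (d i)⟩

noncomputable instance {m : ℕ} (d : Fin m → ℕ) : TopologicalSpace (WedgeSph d) :=
  inferInstanceAs (TopologicalSpace (Quot _))

instance {m : ℕ} (d : Fin m → ℕ) : CompactSpace (WedgeSph d) :=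
  inferInstanceAs (CompactSpace (Quot _))

/-- cross-polytope coordinates -/
noncomputable def wt {n : ℕ} (x : Sph n) (p : Fin (n + 1) × Bool) : ℝ :=
  (max (if p.2 = true then x.1 p.1 else - x.1 p.1) 0) ^ 2

lemma wt_cont {n : ℕ} (p : Fin (n + 1) × Bool) : Continuous fun x : Sph n => wt x p := by
  unfold wt
  split_ifs <;> fun_prop

lemma wt_add {n : ℕ} (x : Sph n) (j : Fin (n + 1)) :
    wt x (j, true) + wt x (j, false) = x.1 j ^ 2 := by
  simp only [wt, if_true, Bool.false_eq_true, if_false]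
  rcases le_total (x.1 j) 0 with h | h
  · rw [max_eq_right h, max_eq_left (by linarith)]; ring
  · rw [max_eq_left h, max_eq_right (by linarith)]; ring

lemma wt_zero {n : ℕ} (x : Sph n) (j : Fin (n + 1)) :
    wt x (j, true) = 0 ∨ wt x (j, false) = 0 := by
  simp only [wt, if_true, Bool.false_eq_true, if_false]
  rcases le_total (x.1 j) 0 with h | h
  · left; rw [max_eq_right h]; ring
  · right; rw [max_eq_right (by linarith)]; ring

lemma sum_wt {n : ℕ} (x : Sph n) : ∑ p, wt x p = 1 := by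
  rw [Fintype.sum_prod_type]
  simp only [Fintype.sum_bool, wt_add]
  rw [← EuclideanSpace.real_norm_sq_eq]
  have : ‖x.1‖ = 1 := by simpa using x.2
  rw [this]; norm_num

lemma wt_inj {n : ℕ} {x y : Sph n} (h : ∀ p, wt x p = wt y p) : x = y := by
  refine Subtype.ext (PiLp.ext fun j => ?_)
  have h1 := h (j, true)
  have h2 := h (j, false)
  simp only [wt, if_true, Bool.false_eq_true, if_false] at h1 h2
  rw [sq_eq_sq₀ (le_max_right _ _) (le_max_right _ _)] at h1 h2
  have e : ∀ a : ℝ, a = max a 0 - max (-a) 0 := fun a => (max_zero_sub_max_neg_zero_eq_self a).symm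
  rw [e (x.1 j), e (y.1 j), h1, h2]

lemma wt_pole {n : ℕ} (p : Fin (n + 1) × Bool) (hp : p ≠ (0, true)) : wt (pole n) p = 0 := by
  obtain ⟨j, b⟩ := p
  by_cases hj : j = 0
  · subst hj
    cases b
    · simp [wt, pole]
    · exact absurd rfl hp
  · cases b <;> simp [wt, pole, hj]

lemma wt_base {n : ℕ} {x : Sph n} (h : ∀ p, p ≠ (0, true) → wt x p = 0) : wt x (0, true) = 1 := by
  rw [← sum_wt x, sum_eq_single (0, true) (fun p _ hp => h p hp) (by simp)]

lemma eq_pole {n : ℕ} {x : Sph n} (h : ∀ p, p ≠ (0, true) → wt x p = 0) : x = pole n := by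
  refine wt_inj fun p => ?_
  by_cases hp : p = (0, true)
  · rw [hp, wt_base h, wt_base wt_pole]
  · rw [h p hp, wt_pole p hp]

lemma exists_wt {n : ℕ} (y : Fin (n + 1) × Bool → ℝ) (h0 : ∀ p, 0 ≤ y p) (h1 : ∑ p, y p = 1)
    (h2 : ∀ j, y (j, true) = 0 ∨ y (j, false) = 0) : ∃ x : Sph n, ∀ p, wt x p = y p := by
  let z : EuclideanSpace ℝ (Fin (n + 1)) :=
    WithLp.toLp 2 fun j => √(y (j, true)) - √(y (j, false))
  have hz : ∀ j, z j ^ 2 = y (j, true) + y (j, false) := by
    intro j
    show (√(y (j, true)) - √(y (j, false))) ^ 2 = _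
    rcases h2 j with h | h
    · rw [h]; simp [Real.sq_sqrt (h0 _)]
    · rw [h]; simp [Real.sq_sqrt (h0 _)]
  have hn : ‖z‖ = 1 := by
    have : ‖z‖ ^ 2 = 1 := by
      rw [EuclideanSpace.real_norm_sq_eq, ← h1, Fintype.sum_prod_type]
      simp only [Fintype.sum_bool, hz]
    exact (pow_eq_one_iff_of_nonneg (norm_nonneg _) two_ne_zero).mp this
  refine ⟨⟨z, by simpa using hn⟩, fun ⟨j, b⟩ => ?_⟩
  have e : z j = √(y (j, true)) - √(y (j, false)) := rfl
  cases b
  · simp only [wt, Bool.false_eq_true, if_false, e]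
    rcases h2 j with h | h
    · rw [h]; simp [Real.sq_sqrt (h0 _)]
    · rw [h]; simp
  · simp only [wt, if_true, e]
    rcases h2 j with h | h
    · rw [h]; simp
    · rw [h]; simp [Real.sq_sqrt (h0 _)]

section wedge
variable {m : ℕ} (d : Fin m → ℕ)

abbrev Vx : Type := Option (Σ i, Fin (d i + 1) × Bool)

noncomputable def emb (i : Fin m) (p : Fin (d i + 1) × Bool) : Vx d :=
  if p = (0, true) then none else some ⟨i, p⟩

lemma emb_inj (i : Fin m) : Function.Injective (emb d i) := by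
  intro p q h
  unfold emb at h
  split_ifs at h with h1 h2 h2
  · rw [h1, h2]
  · simpa using h

lemma emb_base (i : Fin m) : emb d i (0, true) = none := if_pos rfl

lemma sum_emb (i : Fin m) (y : Vx d → ℝ) (hy : ∀ v, y v ≠ 0 → v ∈ Set.range (emb d i)) :
    ∑ v, y v = ∑ p, y (emb d i p) := by
  rw [← sum_image (s := univ) (g := emb d i) (f := y) fun p _ q _ h => emb_inj d i h]
  refine (sum_subset (subset_univ _) fun v _ hv => ?_).symm
  by_contra h
  obtain ⟨p, rfl⟩ := hy v h
  exact hv (mem_image_of_mem _ (mem_univ _))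

def Kw : Set (Finset (Vx d)) :=
  {s | s.Nonempty ∧ ((∀ v ∈ s, v = none) ∨ ∃ i, (∀ v ∈ s, v ∈ Set.range (emb d i)) ∧
    ∀ j, ¬ (emb d i (j, true) ∈ s ∧ emb d i (j, false) ∈ s))}

lemma Kw_complex : IsComplex (Kw d) := by
  refine ⟨fun s hs => hs.1, fun s hs t hts ht => ⟨ht, ?_⟩⟩
  rcases hs.2 with h | ⟨i, h1, h2⟩
  · exact Or.inl fun v hv => h v (hts hv)
  · exact Or.inr ⟨i, fun v hv => h1 v (hts hv), fun j hj => h2 j ⟨hts hj.1, hts hj.2⟩⟩

noncomputable def phi : Unit ⊕ (Σ i, Sph (d i)) → Vx d → ℝ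
  | Sum.inl _ => fun v => if v = none then 1 else 0
  | Sum.inr ⟨i, x⟩ => Function.extend (emb d i) (wt x) 0

lemma phi_emb (i : Fin m) (x : Sph (d i)) (p) : phi d (Sum.inr ⟨i, x⟩) (emb d i p) = wt x p :=
  (emb_inj d i).extend_apply _ _ _

lemma phi_out (i : Fin m) (x : Sph (d i)) (v) (hv : v ∉ Set.range (emb d i)) :
    phi d (Sum.inr ⟨i, x⟩) v = 0 :=
  Function.extend_apply' _ _ _ hv

lemma phi_cont : Continuous (phi d) := by
  refine continuous_sum_dom.mpr ⟨continuous_const, continuous_sigma fun i => continuous_pi fun v => ?_⟩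
  by_cases hv : v ∈ Set.range (emb d i)
  · obtain ⟨p, rfl⟩ := hv
    exact (wt_cont p).congr fun x => (phi_emb d i x p).symm
  · exact continuous_const.congr fun x => (phi_out d i x v hv).symm

lemma phi_mem (a) : phi d a ∈ geom (Kw d) := by
  rcases a with _ | ⟨i, x⟩
  · refine (mem_geom (Kw_complex d)).mpr ⟨fun v => ?_, by simp [phi], {none},
      ⟨singleton_nonempty _, Or.inl fun v hv => mem_singleton.mp hv⟩, fun v hv => ?_⟩
    · simp only [phi]; split_ifs <;> norm_num
    · by_contra h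
      exact hv (if_neg (by simpa using h))
  · have hs : ∀ v, phi d (Sum.inr ⟨i, x⟩) v ≠ 0 → v ∈ Set.range (emb d i) := fun v hv => by
      by_contra h; exact hv (phi_out d i x v h)
    have h1 : ∑ v, phi d (Sum.inr ⟨i, x⟩) v = 1 := by
      rw [sum_emb d i _ hs]; simp only [phi_emb, sum_wt]
    refine ⟨fun v => ?_, h1, supp_nonempty h1, Or.inr ⟨i, fun v hv => hs v (by simpa using hv),
      fun j hj => ?_⟩⟩
    · by_cases hv : v ∈ Set.range (emb d i)
      · obtain ⟨p, rfl⟩ := hv
        rw [phi_emb]; exact sq_nonneg _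
      · rw [phi_out d i x v hv]
    · simp only [mem_filter, mem_univ, true_and, phi_emb] at hj
      rcases wt_zero x j with h | h
      exacts [hj.1 h, hj.2 h]

lemma phi_pole (i : Fin m) : phi d (Sum.inl ()) = phi d (Sum.inr ⟨i, pole (d i)⟩) := by
  funext v
  by_cases hv : v ∈ Set.range (emb d i)
  · obtain ⟨p, rfl⟩ := hv
    rw [phi_emb]
    by_cases hp : p = (0, true)
    · rw [hp, wt_base wt_pole, emb_base]; simp [phi]
    · rw [wt_pole p hp]; simp [phi, emb, hp]
  · rw [phi_out d i _ v hv]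
    have : v ≠ none := fun h => hv ⟨_, (emb_base d i).trans h.symm⟩
    simp [phi, this]

lemma phi_surj (y) (hy : y ∈ geom (Kw d)) : ∃ a, phi d a = y := by
  obtain ⟨h0, h1, -, h | ⟨i, h2, h3⟩⟩ := hy
  · have h' : ∀ v, v ≠ none → y v = 0 := fun v hv => by
      by_contra hh; exact hv (h v (by simpa using hh))
    refine ⟨Sum.inl (), funext fun v => ?_⟩
    by_cases hv : v = none
    · rw [sum_eq_single none (fun v _ hv => h' v hv) (by simp)] at h1
      simp [phi, hv, h1]
    · simp [phi, hv, h' v hv]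
  · have hs : ∀ v, y v ≠ 0 → v ∈ Set.range (emb d i) := fun v hv => h2 v (by simpa using hv)
    obtain ⟨x, hx⟩ := exists_wt (fun p => y (emb d i p)) (fun p => h0 _)
      ((sum_emb d i y hs).symm.trans h1) fun j => by
        by_contra hh
        push Not at hh
        exact h3 j ⟨by simpa using hh.1, by simpa using hh.2⟩
    refine ⟨Sum.inr ⟨i, x⟩, funext fun v => ?_⟩
    by_cases hv : v ∈ Set.range (emb d i)
    · obtain ⟨p, rfl⟩ := hv
      rw [phi_emb, hx]
    · rw [phi_out d i x v hv]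
      by_contra hh
      exact hv (hs v (Ne.symm hh))

noncomputable def Phi : WedgeSph d → geom (Kw d) :=
  Quot.lift (fun a => ⟨phi d a, phi_mem d a⟩) (by
    rintro a b ⟨rfl, i, rfl⟩
    exact Subtype.ext (phi_pole d i))

lemma Phi_cont : Continuous (Phi d) :=
  continuous_quot_lift _ ((phi_cont d).subtype_mk _)

lemma Phi_inj : Function.Injective (Phi d) := by
  have base : ∀ i (x : Sph (d i)), (∀ p, p ≠ (0, true) → wt x p = 0) →
      (Quot.mk _ (Sum.inl ()) : WedgeSph d) = Quot.mk _ (Sum.inr ⟨i, x⟩) := by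
    intro i x h
    rw [eq_pole h]
    exact Quot.sound ⟨rfl, i, rfl⟩
  have h1 : ∀ i (x : Sph (d i)), phi d (Sum.inl ()) = phi d (Sum.inr ⟨i, x⟩) →
      (Quot.mk _ (Sum.inl ()) : WedgeSph d) = Quot.mk _ (Sum.inr ⟨i, x⟩) := by
    intro i x h
    refine base i x fun p hp => ?_
    rw [← phi_emb, ← h]
    simp [phi, emb, hp]
  have h2 : ∀ i i' (x : Sph (d i)) (x' : Sph (d i')), i ≠ i' →
      phi d (Sum.inr ⟨i, x⟩) = phi d (Sum.inr ⟨i', x'⟩) →
      (Quot.mk _ (Sum.inl ()) : WedgeSph d) = Quot.mk _ (Sum.inr ⟨i, x⟩) := by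
    intro i i' x x' hne h
    refine base i x fun p hp => ?_
    rw [← phi_emb, h]
    refine phi_out d i' x' _ ?_
    rintro ⟨q, hq⟩
    unfold emb at hq
    rw [if_neg hp] at hq
    split_ifs at hq
    exact hne (congrArg Sigma.fst (Option.some.inj hq)).symm
  rintro ⟨a⟩ ⟨b⟩ h
  have h' : phi d a = phi d b := congrArg Subtype.val h
  rcases a with _ | ⟨i, x⟩ <;> rcases b with _ | ⟨i', x'⟩
  · rfl
  · exact h1 _ _ h'
  · exact (h1 _ _ h'.symm).symm
  · by_cases hi : i = i'
    · subst hi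
      have : x = x' := wt_inj fun p => by rw [← phi_emb, h', phi_emb]
      rw [this]
    · exact (h2 _ _ _ _ hi h').symm.trans (h2 _ _ _ _ (Ne.symm hi) h'.symm)

lemma Phi_surj : Function.Surjective (Phi d) := by
  rintro ⟨y, hy⟩
  obtain ⟨a, rfl⟩ := phi_surj d y hy
  exact ⟨Quot.mk _ a, rfl⟩

noncomputable def wedgeHomeo : WedgeSph d ≃ₜ geom (Kw d) :=
  Continuous.homeoOfEquivCompactToT2 (f := Equiv.ofBijective _ ⟨Phi_inj d, Phi_surj d⟩)
    (Phi_cont d)

end wedge

/-- (1) Q1 holds: every finite wedge of spheres is homotopy equivalent to the avalanche complex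
of some weakly connected loopless digraph and starting configuration.
(2) More generally, so is the geometric realisation of every finite simplicial complex. -/
theorem result :
    (∀ (m : ℕ) (d : Fin m → ℕ), ∃ (W : Type) (_ : Fintype W) (adj : W → W → Prop) (c : W → ℕ),
      (∀ w, ¬ adj w w) ∧ (SimpleGraph.fromRel adj).Connected ∧
      Nonempty (ContinuousMap.HomotopyEquiv (geom (avalanche adj c)) (WedgeSph d))) ∧
    (∀ (V : Type) [Fintype V] (K : Set (Finset V)), IsComplex K →
      ∃ (W : Type) (_ : Fintype W) (adj : W → W → Prop) (c : W → ℕ),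
      (∀ w, ¬ adj w w) ∧ (SimpleGraph.fromRel adj).Connected ∧
      Nonempty (ContinuousMap.HomotopyEquiv (geom (avalanche adj c)) (geom K))) := by
  refine ⟨fun m d => ?_, fun V _ K hK => realise K hK⟩
  obtain ⟨W, _, adj, c, h1, h2, ⟨e⟩⟩ := realise (Kw d) (Kw_complex d)
  exact ⟨W, inferInstance, adj, c, h1, h2, ⟨e.trans (wedgeHomeo d).symm.toHomotopyEquiv⟩⟩

end Pool.Agent.Results.MP_fb4947_gt.Wedge
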